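import Pool.Agent.H.MP_d59dab.Assembly
import Pool.Agent.H.MP_d59dab.P3E
import Pool.Agent.H.MP_d59dab.StarFinal5

/-!
# MP_d59dab: for which primes is the `n`-th dynatomic polynomial geometrically irreducible
-/

set_option autoImplicit false

open Finset Polynomial

namespace Pool.Agent.Results.MP_d59dab_nt.GeometricIrreducibility

open _root_.MP_d59dab_nt

/-- (*E) over all prime fields of odd characteristic -/
theorem starE_odd (p : ℕ) [hp : Fact p.Prime] (h2 : p ≠ 2) : Dyn59.StarE (ZMod p) := by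
  by_cases h3 : p = 3
  · subst h3
    exact Dyn59.starE_three
  · refine Dyn59.starE_five ?_
    have h1 := hp.out.two_le
    have h4 : p ≠ 4 := by
      rintro rfl
      exact absurd hp.out (by norm_num)
    omega

/-- For every `n ≥ 1` the `n`-th dynatomic polynomial `Φ` of `x ^ 2 + z` exists in `ℤ[z][x]`, is
unique and monic in `x`, and its reduction modulo a prime `p` is irreducible over an algebraic
closure of `𝔽_p` if and only if `p ≠ 2` or `n ≤ 2`. -/
theorem result (n : ℕ) (hn : 0 < n) :
    ∃ Φ : ℤ[X][X], IsDynatomic n Φ ∧ (∀ Ψ : ℤ[X][X], IsDynatomic n Ψ → Ψ = Φ) ∧ Φ.Monic ∧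
      ∀ (p : ℕ) [Fact p.Prime], Irreducible (reduce p Φ) ↔ (p ≠ 2 ∨ n ≤ 2) :=
  main_of_starE (fun p _ h2 => starE_odd p h2) n hn

end Pool.Agent.Results.MP_d59dab_nt.GeometricIrreducibility
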